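import Pool.Agent.Lib.MP_75b31c_lc.D40.Iface

set_option autoImplicit false

/-!
# Locality of the strategy transfers of the closed case (module CLLOC)
-/

namespace Pool.Agent.Lib.MP_75b31c_lc.D40.H89

variable {T : GT} {k : ℕ} {C : Set T.Q}

theorem mv_eq {σ σ' : (clT T k C).Q → (clT T k C).Q} {j : Bool} {m : ℕ}
    (h : ∀ q, (clT T k C).len q < m → Turn j ((clT T k C).len q) → σ q = σ' q)
    (s : Pos T) (hs : T.len s.q < m) (ht : Turn j (T.len s.q)) :
    mv T k C σ s = mv T k C σ' s := by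
  unfold mv
  split_ifs with hv
  · rw [h ⟨s, hv⟩ hs ht]
  · rfl

theorem phiI_eq {σ σ' : (clT T k C).Q → (clT T k C).Q} {m : ℕ}
    (h : ∀ q, (clT T k C).len q < m → Turn false ((clT T k C).len q) → σ q = σ' q)
    (q : T.Q) (hq : T.len q < m) (ht : Turn false (T.len q)) :
    phiI T k C σ q = phiI T k C σ' q := by
  have e2 : ∀ (A : Set T.Q) (o : Opt T.Q), mv T k C σ ⟨q, A, o⟩ = mv T k C σ' ⟨q, A, o⟩ :=
    fun A o => mv_eq h _ hq ht
  unfold phiI
  by_cases h1 : T.len q ≤ 2 * k
  · rw [if_pos h1, if_pos h1, e2]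
  · rw [if_neg h1, if_neg h1]
    have hl : T.len (T.res (2 * k) q) = 2 * k := by
      rw [T.len_res]
      omega
    have e1 : mv T k C σ ⟨T.res (2 * k) q, ∅, Opt.none⟩ =
        mv T k C σ' ⟨T.res (2 * k) q, ∅, Opt.none⟩ := by
      refine mv_eq h _ ?_ ?_
      · simp only [hl]
        omega
      · simp only [hl, Turn, Bool.toNat_false]
        omega
    dsimp only
    rw [e1]
    simp only [e2]

theorem phiII_eq {σ σ' : (clT T k C).Q → (clT T k C).Q} {m : ℕ}
    (h : ∀ q, (clT T k C).len q < m → Turn true ((clT T k C).len q) → σ q = σ' q)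
    (q : T.Q) (hq : T.len q < m) (ht : Turn true (T.len q)) :
    phiII T k C σ q = phiII T k C σ' q := by
  have e2 : ∀ (A : Set T.Q) (o : Opt T.Q), mv T k C σ ⟨q, A, o⟩ = mv T k C σ' ⟨q, A, o⟩ :=
    fun A o => mv_eq h _ hq ht
  by_cases h1 : T.len q ≤ 2 * k
  · unfold phiII
    rw [if_pos h1, if_pos h1, e2]
  · have hl : T.len (T.res (2 * k + 1) q) = 2 * k + 1 := by
      rw [T.len_res]
      omega
    have e1 : ∀ (A : Set T.Q) (o : Opt T.Q),
        mv T k C σ ⟨T.res (2 * k + 1) q, A, o⟩ = mv T k C σ' ⟨T.res (2 * k + 1) q, A, o⟩ := by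
      intro A o
      refine mv_eq h _ ?_ ?_
      · simp only [hl]
        omega
      · simp only [hl, Turn, Bool.toNat_true]
        omega
    have e3 : UA T k C σ (T.res (2 * k + 1) q) = UA T k C σ' (T.res (2 * k + 1) q) := by
      funext A p
      unfold UA
      rw [e1]
    have e4 : US T k C σ (T.res (2 * k + 1) q) = US T k C σ' (T.res (2 * k + 1) q) := by
      unfold US
      rw [e3]
    have e5 : ∀ p, wit T k C σ (T.res (2 * k + 1) q) p = wit T k C σ' (T.res (2 * k + 1) q) p := by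
      intro p
      unfold wit
      rw [e3]
    unfold phiII
    rw [if_neg h1, if_neg h1]
    dsimp only
    rw [e4]
    simp only [e1, e2, e5]

theorem clloc : CLLOC_S := by
  intro T k C j σ σ' m _ _ h q hq ht
  cases j with
  | false =>
    simp only [phi, Bool.false_eq_true, if_false]
    exact phiI_eq h q hq ht
  | true =>
    simp only [phi, if_true]
    exact phiII_eq h q hq ht

end Pool.Agent.Lib.MP_75b31c_lc.D40.H89
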