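import Pool.Agent.Lib.MP_75b31c_lc.D40.Iface

set_option autoImplicit false

/-!
# Countable unions of sets which can be unraveled (module PUN)
-/

namespace Pool.Agent.Lib.MP_75b31c_lc.D40.H89

/-- Composition of morphisms. -/
def Mor.comp {S T U : GT} (b : Mor T U) (a : Mor S T) : Mor S U where
  f q := b.f (a.f q)
  len_f q := by rw [b.len_f, a.len_f]
  res_f n q := by rw [b.res_f, a.res_f]

theorem branch_map {S T : GT} (a : Mor S T) {x : ℕ → S.Q} (hx : Branch S x) :
    Branch T (fun n => a.f (x n)) := by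
  intro n
  refine ⟨?_, ?_⟩
  · simp only [a.len_f]
    exact (hx n).1
  · simp only [a.res_f]
    rw [(hx n).2]

section construction

variable {T : GT} {X : ℕ → Set (ℕ → T.Q)} (hX : ∀ n, PU T (X n)) (k : ℕ)

/-- The stages of the construction: a tree over `T`. -/
abbrev Stage (T : GT) : Type 1 := Σ S : GT, Mor S T

/-- The tree which unravels the preimage of `X n`. -/
noncomputable def nxtT (n : ℕ) (p : Stage T) : GT := Classical.choose (hX n p.1 p.2 (k + n))

/-- The covering which unravels the preimage of `X n`. -/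
noncomputable def nxtC (n : ℕ) (p : Stage T) : Cov (nxtT hX k n p) p.1 :=
  Classical.choose (Classical.choose_spec (hX n p.1 p.2 (k + n)))

theorem nxtC_spec (n : ℕ) (p : Stage T) : Fix (2 * (k + n)) (nxtC hX k n p) ∧
    IsFin (nxtT hX k n p)
      {y | (fun i => (nxtC hX k n p).p.f (y i)) ∈ {y | (fun i => p.2.f (y i)) ∈ X n}} :=
  Classical.choose_spec (Classical.choose_spec (hX n p.1 p.2 (k + n)))

/-- All the stages. -/
noncomputable def stage (p : Stage T) : ℕ → Stage T
  | 0 => p
  | n + 1 => ⟨nxtT hX k n (stage p n), Mor.comp (stage p n).2 (nxtC hX k n (stage p n)).p⟩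

/-- The inverse system. -/
noncomputable def sys (p : Stage T) : Sys where
  T n := (stage hX k p n).1
  c n := nxtC hX k n (stage hX k p n)
  k := k
  fix n := (nxtC_spec hX k n (stage hX k p n)).1

end construction

theorem pun : PUN_S := by
  intro hcomp hthr hlimc hclosed T X hX T' ψ k
  let p : Stage T := ⟨T', ψ⟩
  obtain ⟨S, r, hS⟩ := hthr (sys hX k p)
  obtain ⟨e, hfix, he⟩ := hlimc (sys hX k p) S r hS
  -- the composite of the projections
  have hr : ∀ n q, (stage hX k p n).2.f ((r n).f q) = ψ.f ((r 0).f q) := by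
    intro n
    induction n with
    | zero =>
      intro q
      rfl
    | succ n ih =>
      intro q
      rw [← ih q, ← hS.comm n q]
      rfl
  -- decision stages
  have hdec : ∀ n, ∃ (m : ℕ) (A : Set S.Q), ∀ x, Branch S x →
      ((fun i => ψ.f ((r 0).f (x i))) ∈ X n ↔ x m ∈ A) := by
    intro n
    obtain ⟨m, A, hA⟩ := (nxtC_spec hX k n (stage hX k p n)).2
    refine ⟨m, {q | (r (n + 1)).f q ∈ A}, ?_⟩
    intro x hx
    have h1 : (fun i => (stage hX k p n).2.f
        ((nxtC hX k n (stage hX k p n)).p.f ((r (n + 1)).f (x i)))) ∈ X n ↔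
        (r (n + 1)).f (x m) ∈ A := hA (fun i => (r (n + 1)).f (x i)) (branch_map (r (n + 1)) hx)
    have h2 : (fun i => ψ.f ((r 0).f (x i))) = (fun i => (stage hX k p n).2.f
        ((nxtC hX k n (stage hX k p n)).p.f ((r (n + 1)).f (x i)))) := by
      funext i
      rw [← hr n (x i), ← hS.comm n (x i)]
      rfl
    rw [← h2] at h1
    exact h1
  choose m A hA using hdec
  obtain ⟨S', c, hc, m', B, hB⟩ := hclosed S k {q | ∀ n, m n = S.len q → q ∉ A n}
  obtain ⟨d, hd, hdfix⟩ := hcomp S' S T' c e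
  refine ⟨S', d, hdfix (2 * k) hc hfix, m', Bᶜ, ?_⟩
  intro y hy
  have hy' := branch_map c.p hy
  have h1 := hB y hy
  rw [Set.mem_compl_iff, ← h1]
  have h2 : (fun i => ψ.f (d.p.f (y i))) = fun i => ψ.f ((r 0).f (c.p.f (y i))) := by
    funext i
    rw [hd, he]
  show (fun i => ψ.f (d.p.f (y i))) ∈ (⋃ n, X n) ↔ _
  rw [h2, Set.mem_iUnion]
  constructor
  · rintro ⟨n, hn⟩ h3
    have h4 := h3 (m n) n (by rw [(hy' (m n)).1])
    exact h4 ((hA n _ hy').1 hn)
  · intro h3
    by_contra h7
    apply h3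
    intro i n h4 h5
    apply h7
    refine ⟨n, (hA n _ hy').2 ?_⟩
    have h6 : m n = i := by
      rw [h4]
      exact (hy' i).1
    rw [h6]
    exact h5

end Pool.Agent.Lib.MP_75b31c_lc.D40.H89
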